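import Pool.Agent.FHQ.StmtsG

/-!
# FHQ, row CHS: the induction step of the colourful property
-/

namespace Pool.Agent.FHQ.H89

open Pool.Agent.FHQ

theorem chs (hovt : OvtStmt) (htam : TamStmt) (hldt : LdtStmt) : ChsStmt := by
  intro d ih n k S hS
  obtain ⟨_, hL2, hL3⟩ := hldt
  obtain ⟨S', hS', hS'eq⟩ := hL3 d n S hS
  obtain ⟨n₁, p₁, hCH⟩ := ih (n + 1) k S' hS'
  obtain ⟨T, hT, hTeq⟩ := hL2 d n (d + 1) S hS
  obtain ⟨N, m, p₂, hm, hTAM⟩ := htam ((d + 1) * n) T hT
  obtain ⟨n', hOVT⟩ := hovt (d + 1 + 1) N m n₁ (Nat.succ_pos _) hm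
  refine ⟨n', max p₁ p₂, ?_⟩
  intro p hp K hK A hpp b hb
  have hp₁ : p₁ ≤ p := le_trans (le_max_left _ _) hpp
  have hp₂ : p₂ ≤ p := le_trans (le_max_right _ _) hpp
  -- the sets in one variable
  let Ti : Fin (d + 1 + 1) → (Fin (d + 1 + 1) → Fin n') → Set K := fun i η =>
    {z | ∃ x' : Fin d → K, ∀ j : Fin (d + 1),
      S p K A (Fin.append (Fin.cons z x') (b (i.succAbove j) (η (i.succAbove j))))}
  have hTi : ∀ (i : Fin (d + 1 + 1)) (η : Fin (d + 1 + 1) → Fin n'),
      TameU A N m (Ti i η) := by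
    intro i η
    let w : Fin ((d + 1) * n) → K := fun q =>
      b (i.succAbove (finProdFinEquiv.symm q).1) (η (i.succAbove (finProdFinEquiv.symm q).1))
        (finProdFinEquiv.symm q).2
    have h1 := hTAM p K A hp₂ w
    have h2 : {x : K | T p K A (Fin.cons x w)} = Ti i η := by
      ext z
      show T p K A (Fin.cons z w) ↔ ∃ x' : Fin d → K, ∀ j : Fin (d + 1),
        S p K A (Fin.append (Fin.cons z x') (b (i.succAbove j) (η (i.succAbove j))))
      rw [hTeq p K A z w]
      have h3 : ∀ j : Fin (d + 1), (fun l : Fin n => w (finProdFinEquiv (j, l))) =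
          b (i.succAbove j) (η (i.succAbove j)) := by
        intro j
        funext l
        show b (i.succAbove (finProdFinEquiv.symm (finProdFinEquiv (j, l))).1)
          (η (i.succAbove (finProdFinEquiv.symm (finProdFinEquiv (j, l))).1))
          (finProdFinEquiv.symm (finProdFinEquiv (j, l))).2 = _
        rw [Equiv.symm_apply_apply]
      constructor
      · rintro ⟨x', hx'⟩
        refine ⟨x', fun j => ?_⟩
        have h4 := hx' j
        rw [h3 j] at h4
        exact h4
      · rintro ⟨x', hx'⟩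
        refine ⟨x', fun j => ?_⟩
        rw [h3 j]
        exact hx' j
    rw [← h2]
    exact h1
  have hind : ∀ (i : Fin (d + 1 + 1)) (η η' : Fin (d + 1 + 1) → Fin n'),
      (∀ j, j ≠ i → η j = η' j) → Ti i η = Ti i η' := by
    intro i η η' h
    have h1 : ∀ j : Fin (d + 1), η (i.succAbove j) = η' (i.succAbove j) := fun j =>
      h _ (Fin.succAbove_ne i j)
    ext z
    show (∃ x' : Fin d → K, ∀ j : Fin (d + 1),
        S p K A (Fin.append (Fin.cons z x') (b (i.succAbove j) (η (i.succAbove j))))) ↔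
      ∃ x' : Fin d → K, ∀ j : Fin (d + 1),
        S p K A (Fin.append (Fin.cons z x') (b (i.succAbove j) (η' (i.succAbove j))))
    simp only [h1]
  have hcom : ∀ η : Fin (d + 1 + 1) → Fin n', ∃ x, ∀ i, x ∈ Ti i η := by
    intro η
    obtain ⟨x, hx⟩ := hb η
    refine ⟨x 0, fun i => ⟨Fin.tail x, fun j => ?_⟩⟩
    rw [Fin.cons_self_tail]
    exact hx _
  obtain ⟨i, s, hs, z, hz⟩ := hOVT p K A Ti hind hTi hcom
  -- the rows for the family `S'`
  have hrow : ∀ η : Fin (d + 1) → Fin n₁, ∃ x : Fin d → K, ∀ j,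
      S' p K A (Fin.append x (Fin.cons z (b (i.succAbove j) (s (i.succAbove j) (η j))))) := by
    intro η
    obtain ⟨x', hx'⟩ := hz (Fin.insertNth i (η 0) η)
    refine ⟨x', fun j => ?_⟩
    rw [hS'eq p K A z x' _]
    have h1 := hx' j
    have h2 : sg s (Fin.insertNth i (η 0) η) (i.succAbove j) = s (i.succAbove j) (η j) := by
      show s (i.succAbove j) ((Fin.insertNth i (η 0) η : Fin (d + 1 + 1) → Fin n₁)
        (i.succAbove j)) = _
      rw [Fin.insertNth_apply_succAbove]
    rw [h2] at h1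
    exact h1
  obtain ⟨j, l, hl, x', hx'⟩ := hCH p K A hp₁
    (fun j l => Fin.cons z (b (i.succAbove j) (s (i.succAbove j) l))) hrow
  refine ⟨i.succAbove j, fun a => s (i.succAbove j) (l a), fun a c hac => hl (hs _ hac),
    Fin.cons z x', fun a => ?_⟩
  have h1 := hx' a
  exact (hS'eq p K A z x' _).1 h1

end Pool.Agent.FHQ.H89
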